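import Mathlib
import Pool.Agent.Y221.FQ.Ell

/-!
MP_b9fedf_ag, Q1: maps from tori and entire curves, relative to closed subsets, for the finite
images of systems of high powers, and of their covers.

Let `V = {F = 0}` in `ℙⁿ` be a projective variety given by sums of at most `s` powers of linear
forms, or by forms with at most `s` monomials and divisible exponents. We consider the images
`X = {Φ = 0}` of `V`, and of the finite covers `W = {Ψ = 0}` of subvarieties of `V`, under finite
morphisms with fibres of at most `r` points, where the exponents are at least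
`4 n 10 ^ s (r + 1) ^ 7`. No assumption is made on the singularities and the branch loci.

The definitions are in `Pool/Agent/Y221/FQ/Defs.lean` (`im`, `Mor`, `Onto`, `FibresLe`, `SpH`,
`SpP`, `Entire`, `Essential`, `AllGeneral`), `Pool/Agent/Y221/FQ/Ell.lean` (`TorusCurve`, `SpE`),
`Pool/Agent/TH182/TC/Core.lean` (`PS`, `OnX`, `Holo`), `Pool/Agent/W602/GT/SpDefs.lean` (`Cone`,
`SpAlg`) and `Pool/Agent/W602/GT/Cls.lean` (`HighPowers`).
-/

set_option autoImplicit false

namespace Pool.Agent.Results.MP_b9fedf_ag.FiniteImageTorusLoci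

open Pool.Agent.W602.GT Pool.Agent.Y221.FQ

/-- Let `V = {F = 0}`, `s`, `N`, `r` be as above, and let `E = ℂ / (ℤ w1 + ℤ w2)` be any
one-dimensional complex torus. `SpE w1 w2 X` is the closure of the union of the images of the
nonconstant holomorphic maps from `E` to `X`, the smallest closed subset of `X` which contains
them.

(1) Let `G : V → X = {Φ = 0}` be a surjective morphism with fibres of at most `r` points. If all
nonconstant holomorphic maps from `E` to `X` have their images in a closed subset `Z` of `X`, then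
all nonconstant entire curves in `X`, all images of holomorphic maps from the punctured disc to `X`
with an essential singularity, and all closed subvarieties of positive dimension of `X` which are
not of general type lie in `Z`.

(2) In particular (`Z` empty), if all holomorphic maps from `E` to `X` are constant then all
holomorphic maps from the complex plane to `X` are constant, all holomorphic maps from the punctured
disc to `X` extend, and all closed subvarieties of positive dimension of `X` are of general type.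

(3) Let `W = {Ψ = 0}` be a projective variety with a morphism `B : W → V` and a surjective morphism
`G : W → X = {Φ = 0}` with fibres of at most `r` points. If all nonconstant holomorphic maps from
`E` to `V` have their images in a closed subset `Z` of `V` then the entire curves, the images and
the subvarieties in (1) lie in the closed set `G (B⁻¹ Z)`. -/
theorem result {n M : ℕ} {ι μ : Type} {F : ι → MvPolynomial (Fin (n + 1)) ℂ}
    {Φ : μ → MvPolynomial (Fin (M + 1)) ℂ} {s N r : ℕ} (hF : HighPowers s N F) (hn : 1 ≤ n)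
    (hN : n * (4 * 10 ^ s * (r + 1) ^ 7) ≤ N) (hΦ : ∀ e, IsForm (Φ e)) {w1 w2 : ℂ}
    (hw : LinearIndependent ℝ ![w1, w2]) :
    (∀ G : Fin (M + 1) → MvPolynomial (Fin (n + 1)) ℂ, Mor F Φ G → Onto F Φ G → FibresLe F G r →
      (SpH Φ ⊆ SpE w1 w2 Φ ∧ SpP Φ ⊆ SpE w1 w2 Φ ∧ SpAlg Φ ⊆ SpE w1 w2 Φ) ∧
      ((∀ g, ¬ TorusCurve w1 w2 Φ g) →
        (∀ f, ¬ Entire Φ f) ∧ (∀ f, ¬ Essential Φ f) ∧ AllGeneral Φ)) ∧
    (∀ (m : ℕ) (κ : Type) (Ψ : κ → MvPolynomial (Fin (m + 1)) ℂ)
      (B : Fin (n + 1) → MvPolynomial (Fin (m + 1)) ℂ)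
      (G : Fin (M + 1) → MvPolynomial (Fin (m + 1)) ℂ), (∀ e, IsForm (Ψ e)) → Mor Ψ F B →
      Mor Ψ Φ G → Onto Ψ Φ G → FibresLe Ψ G r →
      SpH Φ ⊆ im G '' {x | x ∈ Cone Ψ ∧ im B x ∈ SpE w1 w2 F} ∧
      SpP Φ ⊆ im G '' {x | x ∈ Cone Ψ ∧ im B x ∈ SpE w1 w2 F} ∧
      SpAlg Φ ⊆ im G '' {x | x ∈ Cone Ψ ∧ im B x ∈ SpE w1 w2 F}) := by
  constructor
  · intro G hG hon hfib
    obtain ⟨h1, h2, h3, -⟩ := special_im hΦ hG hon hfib hF hn hN
    have h4 := gm_sub_e hw hΦ
    refine ⟨⟨h1.trans_subset h4, h2.trans_subset h4, h3.trans_subset h4⟩, fun h => ?_⟩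
    have h5 := hyp_im hΦ hG hon hfib hF hn hN
    have h6 := no_gm_of_e hw hΦ h
    exact ⟨(h5.out 0 3).2 h6, (h5.out 2 3).2 h6, (h5.out 1 3).2 h6⟩
  · intro m κ Ψ B G hΨ hB hG hon hfib
    obtain ⟨h1, h2, h3⟩ := special_cover hΨ hB hG hon hfib hF hn hN
    have h4 : CoverGm Ψ F B G ⊆ im G '' {x | x ∈ Cone Ψ ∧ im B x ∈ SpE w1 w2 F} := by
      rintro _ ⟨x, ⟨hx, hBx⟩, rfl⟩
      exact ⟨x, ⟨hx, gm_sub_e hw hF.form hBx⟩, rfl⟩
    exact ⟨h1.trans h4, h2.trans h4, h3.trans h4⟩

end Pool.Agent.Results.MP_b9fedf_ag.FiniteImageTorusLoci
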