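import Pool.Agent.Y189.DC.Pol

/-!
MP_b9fedf_ag, Q1: holomorphic curves given by linear functional equations, for instance by linear
difference or `q`-difference equations, in projective varieties without rational curves.
-/

set_option autoImplicit false

namespace Pool.Agent.Results.MP_b9fedf_ag.FunctionalEquationAlgebraic

open MvPolynomial Filter Set
open scoped LinearAlgebra.Projectivization
open Pool.Agent.TH8.QD (Stable RelCpt FunEq AlgQ Dil)
open Pool.Agent.TH143.EL (HolMap InV Rep)
open Pool.Agent.Y189.DC (PolEq)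

variable {N : ℕ}

/-- The vector `x` is a zero of all forms in the ideal `I`. -/
def Zero (I : Ideal (MvPolynomial (Fin (N + 1)) ℂ)) (x : Fin (N + 1) → ℂ) : Prop :=
  ∀ G ∈ I, (∃ d, G.IsHomogeneous d) → eval x G = 0

/-- All nonconstant morphisms from the affine line to the projective algebraic set of `I`, given by
polynomials, have their image in the projective algebraic set of `I'`. (For `I' = ⊤` there is no
such morphism.) -/
def RationalCurvesIn (I I' : Ideal (MvPolynomial (Fin (N + 1)) ℂ)) : Prop :=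
  ∀ p : Fin (N + 1) → Polynomial ℂ, (∀ t, Zero I fun j => (p j).eval t) →
    (∃ j k s t, (p j).eval s * (p k).eval t ≠ (p k).eval s * (p j).eval t) →
    ∀ t, Zero I' fun j => (p j).eval t

/-- Let `X` and `Z` be the projective algebraic sets of the ideals `I` and `I'`. Suppose that all
rational curves in `X` are contained in `Z`.

(1) Let `σ` be a holomorphic map from a domain `Ω` to itself with an orbit of infinitely many
different points in a compact subset of `Ω`. Let `S` be an algebra of holomorphic functions on `Ω`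
which is closed under composition with `σ`. Let `f` be a holomorphic map from `Ω` to `X`, not
contained in `Z`, whose homogeneous coordinates satisfy nontrivial linear functional equations
`∑ a_k (z) g (σ^k (z)) = 0` with coefficients in `S`. Then some map `f ∘ σ^t` is algebraic
over `S`.

(2) Let `q` be a complex number, not zero and not a root of unity, and let `S` be an algebra of
entire functions which is closed under the substitutions `z ↦ c z`. Let `f` be an entire curve in
`X`, not contained in `Z`, whose homogeneous coordinates satisfy nontrivial linear `q`-difference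
equations `∑ a_k (z) g (q^k z) = 0` with coefficients in `S`. Then `f` is algebraic over `S`.

(3) Let `σ(z) = a z + b`, `a ≠ 0`, and suppose that no iterate of `σ` is the identity. Let `f` be an
entire curve in `X`, not contained in `Z`, with meromorphic homogeneous coordinates which satisfy
nontrivial linear functional equations `∑ P_k (z) g (σ^k (z)) = 0` with polynomial coefficients.
Then `f` is constant, or `a = 1` (so these are difference equations) and `k b` is a period of `f`
for some `k > 0`. -/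
theorem result (I I' : Ideal (MvPolynomial (Fin (N + 1)) ℂ)) (hR : RationalCurvesIn I I') :
    (∀ (Ω : Set ℂ) (σ : ℂ → ℂ) (S : Subalgebra ℂ (ℂ → ℂ)) (z0 : ℂ), IsPreconnected Ω →
      AnalyticOnNhd ℂ σ Ω → MapsTo σ Ω Ω → Stable Ω σ S → RelCpt Ω (fun m => σ^[m] z0) →
      ∀ f : ℂ → Fin (N + 1) → ℂ, (∀ j, AnalyticOnNhd ℂ (fun z => f z j) Ω) →
        (∀ z ∈ Ω, Zero I (f z)) → (∃ z ∈ Ω, ¬ Zero I' (f z)) →
        (∀ j, FunEq Ω σ S (fun z => f z j)) → ∀ k, (∃ z ∈ Ω, f z k ≠ 0) →
        ∃ t : ℕ, ∀ j, AlgQ Ω S (fun x => f (σ^[t] x) j) (fun x => f (σ^[t] x) k)) ∧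
    (∀ q : ℂ, q ≠ 0 → (∀ m : ℕ, 0 < m → q ^ m ≠ 1) → ∀ S : Subalgebra ℂ (ℂ → ℂ), Dil S →
      ∀ f : ℂ → Fin (N + 1) → ℂ, (∀ j, Differentiable ℂ (fun z => f z j)) →
        (∀ z, Zero I (f z)) → (∃ z, ¬ Zero I' (f z)) →
        (∀ j, FunEq univ (fun z => q * z) S (fun z => f z j)) → ∀ j k, (∃ z, f z k ≠ 0) →
        AlgQ univ S (fun z => f z j) (fun z => f z k)) ∧
    ∀ a b : ℂ, a ≠ 0 → (∀ k, 0 < k → ∃ z, (fun z => a * z + b)^[k] z ≠ z) →
      ∀ f : ℂ → ℙ ℂ (Fin (N + 1) → ℂ), HolMap f → (∀ z, InV I (f z)) → (∃ z, ¬ InV I' (f z)) →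
      ∀ h : Fin (N + 1) → ℂ → ℂ, (∀ j, Meromorphic (h j)) →
        (∀ j, PolEq (fun z => a * z + b) (h j)) →
        (∀ᶠ z in codiscrete ℂ, Rep (f z) fun j => h j z) →
        (∀ z w, f z = f w) ∨ (a = 1 ∧ ∃ k : ℕ, 0 < k ∧ ∀ z, f (z + k * b) = f z) := by
  have hR' : Pool.Agent.TH143.HE.RatCurvesIn (RingHom.id ℂ) I I' := by
    intro p hp hnc u G hG hGh
    rw [eval₂_id]
    refine hR p (fun t G hG hGh => ?_) hnc u G hG hGh
    have := hp t G hG hGh
    rwa [eval₂_id] at this
  have hex : ∀ {x : Fin (N + 1) → ℂ}, ¬ Zero I' x →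
      ∃ G ∈ I', (∃ d, G.IsHomogeneous d) ∧ eval x G ≠ 0 := by
    intro x h
    unfold Zero at h
    push Not at h
    exact h
  refine ⟨?_, ?_, ?_⟩
  · intro Ω σ S z0 hΩ hσa hσm hS hz f hf hI hI' hfe k hk
    obtain ⟨z, hzΩ, hz'⟩ := hI'
    exact Pool.Agent.Y189.DC.alg_main hΩ hσa hσm hS hz
      (fun m => Function.iterate_succ_apply' σ m z0) hR' hf hI ⟨z, hzΩ, hex hz'⟩ hfe hk
  · intro q hq0 hq1 S hS f hf hI hI' hfe j k hk
    obtain ⟨z, hz⟩ := hI'
    exact Pool.Agent.Y189.DC.dil_main hq0 hq1 hS hR' hf hI ⟨z, hex hz⟩ hfe hk j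
  · intro a b ha hinf f hf hI hI' h hm hfe hr
    exact Pool.Agent.Y189.DC.pol_main ha hinf hR' hf hI hI' hm hfe hr

end Pool.Agent.Results.MP_b9fedf_ag.FunctionalEquationAlgebraic
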