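import Pool.Agent.Y377.IL.AllC

/-!
# Tori and entire curves given by iterated linear differential equations

Let `B` be a ring of meromorphic functions on the plane which is closed under differentiation and of
transcendence degree at most one over the complex numbers (for example the constants, the
polynomials, or the elliptic functions with given periods). We consider the smallest set of
meromorphic functions on the plane which contains the quotients of the functions in `B` and is
closed under sums, products and meromorphic solutions of linear systems `y' = A y` with coefficients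
in the set. So the coefficients of the equations can be any functions which have been obtained
before, the coefficients of the equations for these again, and so on: an iterated Picard-Vessiot
tower.

If a projective algebraic set admits no nonconstant holomorphic map from a one-dimensional complex
torus, then every entire curve in it with homogeneous coordinates in this set is constant. In
general the Zariski closure of the union of the nonconstant curves of this kind is the Zariski
closure of the union of the images of one-dimensional complex tori; for curves given by iterated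
linear differential equations over the constants it is the Zariski closure of the union of the
rational curves.
-/

set_option autoImplicit false

namespace Pool.Agent.Results.MP_b9fedf_ag.IteratedLinearTori

open Filter MvPolynomial
open scoped LinearAlgebra.Projectivization
open Pool.Agent.TH143.EL
open Pool.Agent.TH143.HE (RatCurvesIn IsPtP NonConst)
open Pool.Agent.TH600.LK (torus_coords_ell)
open Pool.Agent.Y377.IL (IterLin IteratedOver dich rat iter_main exists_holMap)

variable {N : ℕ}

/-- the Zariski closure of a set of points of the projective space -/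
def ZClosure (S : Set (ℙ ℂ (Fin (N + 1) → ℂ))) : Set (ℙ ℂ (Fin (N + 1) → ℂ)) :=
  {p | ∀ G : MvPolynomial (Fin (N + 1)) ℂ, (∃ d, G.IsHomogeneous d) →
    (∀ x ∈ S, eval x.rep G = 0) → eval p.rep G = 0}

/-- nonconstant entire curves in the projective algebraic set of `I` -/
structure EntireCurve (I : Ideal (MvPolynomial (Fin (N + 1)) ℂ))
    (f : ℂ → ℙ ℂ (Fin (N + 1) → ℂ)) : Prop where
  hol : HolMap f
  mem : ∀ z, InV I (f z)
  nonconst : ∃ z w, f z ≠ f w

/-- Entire curves given by iterated linear differential equations over a ring `B` of meromorphic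
functions which is closed under differentiation and of transcendence degree at most one. -/
def IteratedCurve (f : ℂ → ℙ ℂ (Fin (N + 1) → ℂ)) : Prop :=
  ∃ B : Subalgebra ℂ (ℂ → ℂ), TrOne B ∧ IteratedOver B f

/-- entire curves which factor through a one-dimensional complex torus -/
def DoublyPeriodic (f : ℂ → ℙ ℂ (Fin (N + 1) → ℂ)) : Prop :=
  ∃ ω₁ ω₂ : ℂ, LinearIndependent ℝ ![ω₁, ω₂] ∧ (∀ z, f (z + ω₁) = f z) ∧ ∀ z, f (z + ω₂) = f z

/-- polynomial parametrisations of nonconstant rational curves in the algebraic set of `I` -/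
def RationalCurve (I : Ideal (MvPolynomial (Fin (N + 1)) ℂ)) (p : Fin (N + 1) → Polynomial ℂ) :
    Prop :=
  (∀ t y, Rep y (fun j => (p j).eval t) → InV I y) ∧
    ∃ j k u v, (p j).eval u * (p k).eval v ≠ (p k).eval u * (p j).eval v

/-- the special set given by the one-dimensional complex tori -/
def SpTor (I : Ideal (MvPolynomial (Fin (N + 1)) ℂ)) : Set (ℙ ℂ (Fin (N + 1) → ℂ)) :=
  ZClosure {x | ∃ f, EntireCurve I f ∧ DoublyPeriodic f ∧ ∃ z, f z = x}

/-- the special set given by the curves given by iterated linear differential equations -/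
def SpIter (I : Ideal (MvPolynomial (Fin (N + 1)) ℂ)) : Set (ℙ ℂ (Fin (N + 1) → ℂ)) :=
  ZClosure {x | ∃ f, EntireCurve I f ∧ IteratedCurve f ∧ ∃ z, f z = x}

/-- the special set given by the curves given by iterated linear differential equations over the
constants -/
def SpConst (I : Ideal (MvPolynomial (Fin (N + 1)) ℂ)) : Set (ℙ ℂ (Fin (N + 1) → ℂ)) :=
  ZClosure {x | ∃ f, EntireCurve I f ∧ IteratedOver ⊥ f ∧ ∃ z, f z = x}

/-- the closure of the union of the rational curves -/
def SpRat (I : Ideal (MvPolynomial (Fin (N + 1)) ℂ)) : Set (ℙ ℂ (Fin (N + 1) → ℂ)) :=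
  ZClosure {x | ∃ p : Fin (N + 1) → Polynomial ℂ, RationalCurve I p ∧
    ∃ t, Rep x fun j => (p j).eval t}

theorem subset_ZClosure (S : Set (ℙ ℂ (Fin (N + 1) → ℂ))) : S ⊆ ZClosure S :=
  fun x hx _ _ h => h x hx

/-- the ideal generated by the forms vanishing on `S` -/
noncomputable def idealOf (S : Set (ℙ ℂ (Fin (N + 1) → ℂ))) :
    Ideal (MvPolynomial (Fin (N + 1)) ℂ) :=
  Ideal.span {G | (∃ d, G.IsHomogeneous d) ∧ ∀ x ∈ S, eval x.rep G = 0}

theorem eval_idealOf {S : Set (ℙ ℂ (Fin (N + 1) → ℂ))} {x : ℙ ℂ (Fin (N + 1) → ℂ)} (hx : x ∈ S)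
    {G : MvPolynomial (Fin (N + 1)) ℂ} (hG : G ∈ idealOf S) : eval x.rep G = 0 := by
  have h1 : idealOf S ≤ RingHom.ker (eval x.rep) := by
    unfold idealOf
    rw [Ideal.span_le]
    intro G hG
    exact hG.2 x hx
  exact h1 hG

theorem inV_idealOf_iff {S : Set (ℙ ℂ (Fin (N + 1) → ℂ))} {p : ℙ ℂ (Fin (N + 1) → ℂ)} :
    InV (idealOf S) p ↔ p ∈ ZClosure S := by
  constructor
  · intro h G hG hGS
    exact h G (Ideal.subset_span ⟨hG, hGS⟩) hG
  · intro h G hG hGh
    exact h G hGh fun x hx => eval_idealOf hx hG

theorem ratCurves_idealOf (I : Ideal (MvPolynomial (Fin (N + 1)) ℂ)) :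
    RatCurvesIn (RingHom.id ℂ) I (idealOf {x | ∃ p : Fin (N + 1) → Polynomial ℂ,
      RationalCurve I p ∧ ∃ t, Rep x fun j => (p j).eval t}) := by
  intro p hp hncp u G hG hGh
  obtain ⟨j0, k0, u1, v1, hne⟩ := hncp
  have hpj : ∃ j, p j ≠ 0 := by
    by_contra h0
    push Not at h0
    rw [h0 j0, h0 k0] at hne
    simp at hne
  obtain ⟨j1, hj1⟩ := hpj
  have hzero : (aeval p G : Polynomial ℂ) = 0 := by
    apply nc_poly (q := fun z => z) (fun z => analyticAt_id.meromorphicAt) ?_ ?_
    · rintro ⟨c, hc⟩
      obtain ⟨z0, hz0⟩ := hc.exists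
      have h2 : ∀ᶠ z in nhds z0, z = c := codis_nhds hc hz0
      have h3 := infinite_of_mem_nhds z0 h2
      exact h3 ((Set.finite_singleton c).subset fun z hz => hz)
    · filter_upwards [poly_codis hj1] with t ht
      rw [eval_comp_poly]
      have hv : (fun j => (p j).eval t) ≠ 0 := fun h0 => ht (congrFun h0 j1)
      let x : ℙ ℂ (Fin (N + 1) → ℂ) := Projectivization.mk ℂ _ hv
      have hx : Rep x fun j => (p j).eval t := ⟨hv, rfl⟩
      have h1 := inV_idealOf_iff.2 (subset_ZClosure {x | ∃ p : Fin (N + 1) → Polynomial ℂ,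
        RationalCurve I p ∧ ∃ t, Rep x fun j => (p j).eval t} ⟨p, ⟨fun t' y hy => by
          rw [inV_iff hy]
          intro G' hG' hGh'
          have := hp t' G' hG' hGh'
          rwa [eval₂_id] at this, ⟨j0, k0, u1, v1, hne⟩⟩, t, hx⟩)
      exact (inV_iff hx).1 h1 G hG hGh
  rw [eval₂_id, ← eval_comp_poly, hzero, Polynomial.eval_zero]

/-- rational curves are given by iterated linear differential equations over the constants -/
theorem curve_of_rational {I : Ideal (MvPolynomial (Fin (N + 1)) ℂ)}
    {p : Fin (N + 1) → Polynomial ℂ} (hp : RationalCurve I p) :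
    ∃ f, EntireCurve I f ∧ IteratedOver ⊥ f ∧
      ∀ z x, Rep x (fun j => (p j).eval z) → f z = x := by
  obtain ⟨hI, j0, k0, u, v, hne⟩ := hp
  have hpj : ∃ j, p j ≠ 0 := by
    by_contra h0
    push Not at h0
    rw [h0 j0, h0 k0] at hne
    simp at hne
  obtain ⟨f, hf, hfr⟩ := exists_holMap p hpj
  obtain ⟨j1, hj1⟩ := hpj
  have hev : ∀ᶠ z in codiscrete ℂ, Rep (f z) fun j => (p j).eval z := by
    filter_upwards [poly_codis hj1] with z hz
    exact hfr z fun h0 => hz (congrFun h0 j1)
  refine ⟨f, ⟨hf, fun z => inV_of_punct hf ?_, u, v, ?_⟩,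
    ⟨fun j z => (p j).eval z, fun j => IterLin.poly ⊥ (p j), hev⟩, fun z x hx =>
      rep_eq (hfr z hx.1) hx⟩
  · filter_upwards [codis_ev hev z] with t ht
    exact hI t _ ht
  · intro h0
    have hu : (fun j => (p j).eval u) ≠ 0 := by
      intro h1
      apply hne
      rw [congrFun h1 j0, congrFun h1 k0]
      simp
    have hv : (fun j => (p j).eval v) ≠ 0 := by
      intro h1
      apply hne
      rw [congrFun h1 j0, congrFun h1 k0]
      simp
    have h1 := hfr u hu
    have h2 := hfr v hv
    rw [← h0] at h2
    apply hne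
    obtain ⟨_, h3⟩ := h1
    obtain ⟨_, h4⟩ := h2
    rw [h3, Projectivization.mk_eq_mk_iff'] at h4
    obtain ⟨c, hc⟩ := h4
    have h5 : (p j0).eval u = c * (p j0).eval v := (congrFun hc j0).symm
    have h6 : (p k0).eval u = c * (p k0).eval v := (congrFun hc k0).symm
    rw [h5, h6]
    ring

/-- Let `X` be the projective algebraic set of `I`.

(1) The Zariski closure of the union of the entire curves in `X` given by iterated linear
differential equations is the Zariski closure of the union of the images of the nonconstant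
holomorphic maps from one-dimensional complex tori to `X`.

(2) The Zariski closure of the union of the entire curves in `X` given by iterated linear
differential equations over the constants is the Zariski closure of the union of the rational
curves in `X`.

(3) Every entire curve in `X` given by iterated linear differential equations lies in the Zariski
closure of the union of the rational curves in `X`, or it is doubly periodic.

(4) If every holomorphic map from a one-dimensional complex torus to `X` is constant, then every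
holomorphic map from the plane to `X` given by iterated linear differential equations is constant.

(5) If there is no rational curve in `X`, then every holomorphic map from the plane to `X` given by
iterated linear differential equations over the constants is constant. -/
theorem result (I : Ideal (MvPolynomial (Fin (N + 1)) ℂ)) :
    SpIter I = SpTor I ∧
    SpConst I = SpRat I ∧
    (∀ f, EntireCurve I f → IteratedCurve f → (∀ z, f z ∈ SpRat I) ∨ DoublyPeriodic f) ∧
    ((∀ ω₁ ω₂ : ℂ, LinearIndependent ℝ ![ω₁, ω₂] → ∀ t : ℂ → ℙ ℂ (Fin (N + 1) → ℂ), HolMap t →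
        (∀ z, t (z + ω₁) = t z) → (∀ z, t (z + ω₂) = t z) → (∀ z, InV I (t z)) →
        ∀ z w, t z = t w) →
      ∀ f, HolMap f → (∀ z, InV I (f z)) → IteratedCurve f → ∀ z w, f z = f w) ∧
    ((¬ ∃ p, RationalCurve I p) →
      ∀ f, HolMap f → (∀ z, InV I (f z)) → IteratedOver ⊥ f → ∀ z w, f z = f w) := by
  classical
  refine ⟨?_, ?_, ?_, ?_, ?_⟩
  · apply Set.Subset.antisymm
    · have hT : TorusMapsIn I (idealOf {x | ∃ f, EntireCurve I f ∧ DoublyPeriodic f ∧
          ∃ z, f z = x}) := by
        intro ω₁ ω₂ hind f hf h1 h2 hI hnc z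
        rw [inV_idealOf_iff]
        exact subset_ZClosure _ ⟨f, ⟨hf, hI, hnc⟩, ⟨ω₁, ω₂, hind, h1, h2⟩, z, rfl⟩
      intro p hp G hG hGS
      apply hp G hG
      rintro x ⟨f, ⟨hf, hI, hnc⟩, ⟨B, hB, h, hl, hr⟩, z, rfl⟩
      have h3 := iter_main hT hB hf hl hr hI hnc z
      rw [inV_idealOf_iff] at h3
      exact h3 G hG hGS
    · intro p hp G hG hGS
      apply hp G hG
      rintro x ⟨f, ⟨hf, hI, hnc⟩, ⟨ω₁, ω₂, hind, h1, h2⟩, z, rfl⟩
      obtain ⟨h, hl, hr⟩ := torus_coords_ell hf h1 h2
      refine hGS _ ⟨f, ⟨hf, hI, hnc⟩, ⟨Ell ω₁ ω₂, trOne_ell hind, fun j z => h z j, fun j => ?_,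
        hr⟩, z, rfl⟩
      have h3 := IterLin.quot (hl j) (Ell ω₁ ω₂).one_mem
      have h4 : (fun z => h z j / (1 : ℂ → ℂ) z) = fun z => h z j := by
        funext z
        exact div_one _
      rwa [h4] at h3
  · apply Set.Subset.antisymm
    · intro p hp G hG hGS
      apply hp G hG
      rintro x ⟨f, ⟨hf, hI, hnc⟩, ⟨h, hl, hr⟩, z, rfl⟩
      have h3 := rat (ratCurves_idealOf I) hf hl hr hI hnc z
      rw [inV_idealOf_iff] at h3
      exact h3 G hG hGS
    · intro p hp G hG hGS
      apply hp G hG
      rintro x ⟨q, hq, t, hx⟩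
      obtain ⟨f, h1, h2, h3⟩ := curve_of_rational hq
      exact hGS _ ⟨f, h1, h2, t, h3 t x hx⟩
  · rintro f ⟨hf, hI, hnc⟩ ⟨B, hB, h, hl, hr⟩
    rcases dich (ratCurves_idealOf I) hB hf hl hr hI hnc with h1 | h1
    · left
      intro z
      exact inV_idealOf_iff.1 (h1 z)
    · right
      exact h1
  · rintro hT f hf hI ⟨B, hB, h, hl, hr⟩ z w
    by_contra hzw
    have h3 := iter_main (I := I) (I' := ⊤) (fun ω₁ ω₂ hind t ht h4 h5 h6 h7 => by
      obtain ⟨a, b, hab⟩ := h7
      exact absurd (hT ω₁ ω₂ hind t ht h4 h5 h6 a b) hab) hB hf hl hr hI ⟨z, w, hzw⟩ z 1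
      Submodule.mem_top ⟨0, isHomogeneous_one _ _⟩
    rw [map_one] at h3
    exact one_ne_zero h3
  · rintro hT f hf hI ⟨h, hl, hr⟩ z w
    by_contra hzw
    have h3 := rat (ratCurves_idealOf I) hf hl hr hI ⟨z, w, hzw⟩ z
    rw [inV_idealOf_iff] at h3
    have h4 := h3 1 ⟨0, isHomogeneous_one _ _⟩ fun x hx => by
      obtain ⟨q, hq, -⟩ := hx
      exact absurd ⟨q, hq⟩ hT
    rw [map_one] at h4
    exact one_ne_zero h4

end Pool.Agent.Results.MP_b9fedf_ag.IteratedLinearTori
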