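import Pool.Agent.Y190.OP.Torus

/-!
MP_b9fedf_ag, Q1: entire curves and maps from complex tori for the closed subsets of the complete
intersections `w j ^ d j = H (a j 1) * ... * H (a j (d j))`, `j < c`, of linear degree in `P^(c+n)`.

`CompInt n a` is the (cone over the) complete intersection; the last `n + 1` coordinates are the
coefficients of the polynomial `H`. `Cone F` is the cone over the projective variety `V = {F = 0}`.
`TorusRigid F` and `EllipticRigid F`: every holomorphic map from a complex torus, or from a
one-dimensional complex torus, to `V` is constant. `Brody F`: every holomorphic map from the complex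
plane to `V` is constant. `Picard F`: every holomorphic map from the punctured disc to `V` extends
to the disc. `AllGeneralType F`: all closed subvarieties of `V` of positive dimension are of general
type. `AlgHyperbolic n F`: the degree of a map from a curve of genus `g` to `V` is at most
`n * max (2 * g - 2) 0`. `SpH ∅ F`, `SpCg ∅ F`, `SpLine F`: the closures of the unions of the entire
curves in `V`, of the images of the nonconstant meromorphic maps from the `ℂ ^ g` which are
holomorphic outside a set of codimension at least two, and of the lines in `V` (as cones).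
-/

set_option autoImplicit false

namespace Pool.Agent.Results.MP_b9fedf_ag.LinearDegreeTori

open Pool.Agent.W602.GT Pool.Agent.Y190.CI Pool.Agent.W603.CX Pool.Agent.Y190.PH
  Pool.Agent.TH182.TC Pool.Agent.W603.BP Pool.Agent.H159R3.GGLLog Pool.Agent.Y190.AN

/-- Let `n * (c + 2) < c * δ` and `3 * (n + 1) < δ + 3 * c`, let `d j ≥ δ` for `j < c`, and let the
complex numbers `a j i` be distinct (`Data`). Let `V` be a closed subset of the complete
intersection `w j ^ d j = H (a j 1) * ... * H (a j (d j))`, `j < c`.

(1) If `n ≤ c + 1`, the following are equivalent: all maps from complex tori to `V` are constant;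
all maps from one-dimensional tori to `V` are constant; all entire curves in `V` are constant; `V`
is Picard hyperbolic; all subvarieties of `V` are of general type; `V` is algebraically hyperbolic;
`V` contains no line.

(2) For all `n` and `c`, if `V` is the complete intersection, the closure of the union of the entire
curves in `V` is the closure of the union of the lines in `V`; it is given by `w = 0` if `c < n`,
and empty if `n ≤ c`. -/
theorem result {n c δ : ℕ} {d : Fin c → ℕ} {a : (j : Fin c) → Fin (d j) → ℂ}
    (h : Data n c δ d a) {ι : Type} {F : ι → MvPolynomial (Fin (c + n + 1)) ℂ}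
    (hF : ∀ e, IsForm (F e)) (hV : Cone F ⊆ CompInt n a) :
    (n ≤ c + 1 → [TorusRigid F, EllipticRigid F, Brody F, Picard F, AllGeneralType F,
      AlgHyperbolic n F, ¬ ContainsLine F].TFAE) ∧
    (Cone F = CompInt n a → SpH ∅ F = SpLine F ∧ SpCg ∅ F = SpLine F ∧
      (c < n → SpLine F = WZero F) ∧ (n ≤ c → SpLine F = ∅)) := by
  refine ⟨fun hnc => ?_, fun hC => ?_⟩
  · have h1 := hyp_seven hnc h.num h.inj hF hV
    tfae_have 1 → 2 := fun h => h.elliptic
    tfae_have 2 → 3 := torus_brody hnc h.num h.inj hF hV
    tfae_have 3 → 1 := Pool.Agent.Y190.OP.brody_torus hF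
    tfae_have 3 ↔ 4 := h1.out 0 1
    tfae_have 3 ↔ 5 := h1.out 0 2
    tfae_have 3 ↔ 6 := h1.out 0 3
    tfae_have 3 ↔ 7 := h1.out 0 6
    tfae_finish
  · obtain ⟨-, -, h3, h4, -, h6⟩ := special_full h.num h.inj hF hC
    exact ⟨h3, h4, fun hcn => (h6 hcn).trans wZero_eq,
      fun hcn => spLine_empty_ci hcn h.num h.inj hF hC.subset⟩

end Pool.Agent.Results.MP_b9fedf_ag.LinearDegreeTori
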